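import Pool.Agent.Helper6K9.GM.One

set_option autoImplicit false

/-!
# The arithmetic theorem on meromorphic curves
-/

namespace Pool.Agent.Helper6K9.GM

open Complex Filter Topology Set Pool.Agent.W175.GF Pool.Agent.W266.GF

/-- the zeros of an analytic function on a connected set -/
theorem zeros_countable {G : Set ℂ} (hG : IsPreconnected G) {Φ : ℂ → ℂ}
    (hΦ : AnalyticOnNhd ℂ Φ G) (hne : ∃ t ∈ G, Φ t ≠ 0) : {t | t ∈ G ∧ Φ t = 0}.Countable := by
  apply (HereditarilyLindelofSpace.isLindelof _).countable_of_isDiscrete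
  rw [isDiscrete_iff_forall_mem_exists_isOpen]
  intro x hx
  obtain ⟨t, ht, ht0⟩ := hne
  have h1 : ∀ᶠ z in 𝓝[≠] x, Φ z ≠ 0 := by
    rcases (hΦ x hx.1).eventually_eq_zero_or_eventually_ne_zero with h | h
    · exact absurd (hΦ.eqOn_zero_of_preconnected_of_eventuallyEq_zero hG hx.1 h ht) ht0
    · exact h
  rw [eventually_nhdsWithin_iff] at h1
  obtain ⟨ρ, hρ, hb⟩ := Metric.eventually_nhds_iff_ball.1 h1
  refine ⟨Metric.ball x ρ, Metric.isOpen_ball, ?_⟩
  ext z
  constructor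
  · rintro ⟨hz1, hz2⟩
    by_contra hzx
    exact hb z hz1 hzx hz2.2
  · rintro rfl
    exact ⟨Metric.mem_ball_self hρ, hx⟩

/-- algebraic dependence from the transcendence degree -/
theorem dep_of_lt {F : Type} [Field F] [Algebra F ℂ] {ι : Type} [Fintype ι]
    {K : IntermediateField F ℂ} {v : ι → ℂ} (hv : ∀ i, v i ∈ K)
    (h : Algebra.trdeg F K < ((Fintype.card ι : ℕ) : Cardinal)) :
    ∃ P : MvPolynomial ι F, P ≠ 0 ∧ MvPolynomial.aeval v P = 0 := by
  by_contra hcon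
  push Not at hcon
  have h1 : AlgebraicIndependent F v := by
    rw [algebraicIndependent_iff]
    intro P hP
    by_contra h0
    exact hcon P h0 hP
  set v' : ι → K := fun i => ⟨v i, hv i⟩ with hv'
  have h2 : AlgebraicIndependent F v' := by
    rw [← AlgHom.algebraicIndependent_iff K.val K.val.injective]
    exact h1
  have h3 := h2.cardinalMk_le_trdeg
  rw [Cardinal.mk_fintype] at h3
  exact absurd h (not_lt.2 h3)

theorem countable_mv (F : Type) [Field F] [Countable F] (ι : Type) [Countable ι] :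
    Countable (MvPolynomial ι F) := by
  rw [← Cardinal.mk_le_aleph0_iff]
  refine (MvPolynomial.cardinalMk_le_max).trans ?_
  have h1 : Cardinal.mk F ≤ Cardinal.aleph0 := Cardinal.mk_le_aleph0_iff.2 inferInstance
  have h2 : Cardinal.mk ι ≤ Cardinal.aleph0 := Cardinal.mk_le_aleph0_iff.2 inferInstance
  exact max_le (max_le h1 h2) le_rfl

/-- **The conjecture on meromorphic curves.** -/
theorem arith (F : Type) [Field F] [Algebra F ℂ] [Countable F] {n : ℕ} (hn : 0 < n)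
    {Ω : Set ℂ} (hΩ : IsOpen Ω) (hc : IsPreconnected Ω) (φ : ℂ → ℂ) (hφ : DifferentiableOn ℂ φ Ω)
    (hφc : ∀ v : ℂ, ∃ t ∈ Ω, φ t ≠ v)
    (y : Fin n → ℂ → ℂ) (hy : ∀ i, MeromorphicOn (y i) Ω)
    (hcase : ∀ i, (∃ x ∈ Ω, meromorphicOrderAt (y i) x < 0) ∨
      ((∀ v : ℂ, ∃ t ∈ Ω, AnalyticAt ℂ (y i) t ∧ y i t ≠ v) ∧
        ∃ Q : Polynomial (Polynomial ℂ), Q ≠ 0 ∧
          ∀ t ∈ Ω, AnalyticAt ℂ (y i) t → Q.evalEval (φ t) (y i t) = 0))
    (hH : ∀ i l, i ≠ l → ∀ p q : ℚ, ∃ t ∈ Ω, AnalyticAt ℂ (y i) t ∧ AnalyticAt ℂ (y l) t ∧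
      y i t ≠ p * y l t + q) :
    {t : ℂ | t ∈ Ω ∧ Algebra.trdeg F (IntermediateField.adjoin F
      (Set.range (fun i => y i t) ∪ Set.range fun i => Gamma (y i t))) <
        ((n + 1 : ℕ) : Cardinal)}.Countable := by
  classical
  obtain ⟨tφ, htφ, -⟩ := hφc 0
  have hΩn : Ω.Nonempty := ⟨tφ, htφ⟩
  -- normal forms
  let z : Fin n → ℂ → ℂ := fun i => toMeromorphicNFOn (y i) Ω
  have hznf : ∀ i, MeromorphicNFOn (z i) Ω := fun i =>
    meromorphicNFOn_toMeromorphicNFOn (y i) Ω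
  have hz : ∀ i, ∀ x ∈ Ω, MeromorphicAt (z i) x := fun i x hx => (hznf i hx).meromorphicAt
  have hzo : ∀ i, ∀ x ∈ Ω, meromorphicOrderAt (z i) x = meromorphicOrderAt (y i) x :=
    fun i x hx => meromorphicOrderAt_toMeromorphicNFOn (hy i) hx
  have hzy : ∀ i, ∀ t ∈ Ω, AnalyticAt ℂ (y i) t → z i =ᶠ[𝓝 t] y i := by
    intro i t ht ha
    filter_upwards [ha.eventually_analyticAt, hΩ.mem_nhds ht] with s hs1 hs2
    show toMeromorphicNFOn (y i) Ω s = y i s
    rw [toMeromorphicNFOn_eq_toMeromorphicNFAt (hy i) hs2]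
    rw [toMeromorphicNFAt_eq_self.2 hs1.meromorphicNFAt]
  have hzan : ∀ i, ∀ t ∈ Ω, AnalyticAt ℂ (y i) t → AnalyticAt ℂ (z i) t := fun i t ht ha =>
    ha.congr (hzy i t ht ha).symm
  have hyq : ∀ i, ∀ x ∈ Ω, QuotAt (y i) x := fun i x hx => quot_of_mero (hy i x hx)
  -- the good set of the `y i`
  obtain ⟨hGyo, hGyp, -, hGyd⟩ := good_set hΩ ⟨hΩn, hc⟩ y hyq
  set Gy : Set ℂ := {t | t ∈ Ω ∧ ∀ i, AnalyticAt ℂ (y i) t} with hGy
  obtain ⟨hGo, hGp, -, -⟩ := good_set hΩ ⟨hΩn, hc⟩ z (fun i x hx => quot_of_mero (hz i x hx))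
  set G : Set ℂ := {t | t ∈ Ω ∧ ∀ i, AnalyticAt ℂ (z i) t} with hG
  have hGyG : Gy ⊆ G := fun t ht => ⟨ht.1, fun i => hzan i t ht.1 (ht.2 i)⟩
  have hpt : ∀ t ∈ Ω, ∀ S : Set ℂ, S ∈ 𝓝 t → ∃ s ∈ Gy, s ∈ S := by
    intro t ht S hS
    obtain ⟨s, hs1, hs2⟩ := mem_closure_iff_nhds.1 (hGyd ht) S hS
    exact ⟨s, hs2, hs1⟩
  -- a disc
  obtain ⟨t₁, ht₁, -⟩ := hpt tφ htφ univ univ_mem
  obtain ⟨ρ, hρ, hρB⟩ := Metric.isOpen_iff.1 hGyo t₁ ht₁
  set Ω' := Metric.ball t₁ ρ with hΩ'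
  have hΩ'p : IsPreconnected Ω' := (convex_ball t₁ ρ).isPreconnected
  have ht₁' : t₁ ∈ Ω' := Metric.mem_ball_self hρ
  -- constancy
  have hconst : ∀ i, (∃ v : ℂ, ∀ t ∈ Ω', z i t = v) → ∃ v : ℂ, ∀ t ∈ G, z i t = v := by
    rintro i ⟨v, hv⟩
    refine ⟨v, fun t ht => ?_⟩
    have h3 : AnalyticOnNhd ℂ (fun t => z i t - v) G := fun t ht =>
      (ht.2 i).fun_sub analyticAt_const
    have h4 := h3.eqOn_zero_of_preconnected_of_eventuallyEq_zero hGp (hGyG ht₁)
      (by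
        filter_upwards [Metric.isOpen_ball.mem_nhds ht₁'] with s hs
        show z i s - v = 0
        rw [hv s hs, sub_self]) ht
    exact sub_eq_zero.1 h4
  have hnc : ∀ i, ∀ v : ℂ, ¬ ∀ t ∈ Ω', z i t = v := by
    intro i v hv
    obtain ⟨v', hv'⟩ := hconst i ⟨v, hv⟩
    rcases hcase i with ⟨x, hx, hx'⟩ | ⟨h1, -⟩
    · have h2 : ∀ᶠ s in 𝓝[≠] x, ∀ l, AnalyticAt ℂ (z l) s := by
        rw [Filter.eventually_all]
        intro l
        exact (hz l x hx).eventually_analyticAt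
      have h3 : z i =ᶠ[𝓝[≠] x] fun _ => v' := by
        filter_upwards [h2, (hΩ.mem_nhds hx : Ω ∈ 𝓝 x) |> nhdsWithin_le_nhds] with s hs1 hs2
        exact hv' s ⟨hs2, hs1⟩
      have h4 := meromorphicOrderAt_congr h3
      rw [hzo i x hx] at h4
      rw [h4] at hx'
      have h5 : (0 : WithTop ℤ) ≤ meromorphicOrderAt (fun _ : ℂ => v') x :=
        (analyticAt_const).meromorphicOrderAt_nonneg
      exact absurd hx' (not_lt.2 h5)
    · obtain ⟨t, ht, h2, h3⟩ := h1 v'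
      have h4 : {s | y i s ≠ v' ∧ z i s = y i s} ∈ 𝓝 t := by
        filter_upwards [h2.continuousAt.eventually_ne h3, hzy i t ht h2] with s hs1 hs2
        exact ⟨hs1, hs2⟩
      obtain ⟨s, hs1, hs2, hs3⟩ := hpt t ht _ h4
      exact hs2 (hs3 ▸ hv' s (hGyG hs1))
  have hφnc : ∀ v : ℂ, ¬ ∀ t ∈ Ω', φ t = v := by
    intro v hv
    obtain ⟨t, ht, ht'⟩ := hφc v
    apply ht'
    have h3 : AnalyticOnNhd ℂ (fun t => φ t - v) Ω := (hφ.sub_const v).analyticOnNhd hΩ
    have h4 := h3.eqOn_zero_of_preconnected_of_eventuallyEq_zero hc ht₁.1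
      (by
        filter_upwards [Metric.isOpen_ball.mem_nhds ht₁'] with s hs
        show φ s - v = 0
        rw [hv s hs, sub_self]) ht
    exact sub_eq_zero.1 h4
  have hdz : ∀ i, DifferentiableOn ℂ (z i) Ω' := fun i t ht =>
    ((hGyG (hρB ht)).2 i).differentiableAt.differentiableWithinAt
  have hdφ : DifferentiableOn ℂ φ Ω' := hφ.mono fun t ht => (hρB ht).1
  have hzalg : ∀ i, (∃ x ∈ Ω, meromorphicOrderAt (z i) x < 0) ∨ AlgDep Ω' φ (z i) := by
    intro i
    rcases hcase i with ⟨x, hx, hx'⟩ | ⟨-, Q, hQ, hQ0⟩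
    · exact Or.inl ⟨x, hx, by rw [hzo i x hx]; exact hx'⟩
    · refine Or.inr ⟨Q, hQ, fun t ht => ?_⟩
      rw [(hzy i t (hρB ht).1 ((hρB ht).2 i)).self_of_nhds]
      exact hQ0 t (hρB ht).1 ((hρB ht).2 i)
  -- the index of the additional function
  obtain ⟨i₀, hi₀⟩ : ∃ i₀ : Fin n, (∀ i, (∃ x ∈ Ω, meromorphicOrderAt (z i) x < 0)) ∨
      ¬ (∃ x ∈ Ω, meromorphicOrderAt (z i₀) x < 0) := by
    by_cases h : ∀ i, (∃ x ∈ Ω, meromorphicOrderAt (z i) x < 0)
    · exact ⟨⟨0, hn⟩, Or.inl h⟩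
    · push Not at h
      obtain ⟨i, hi⟩ := h
      refine ⟨i, Or.inr ?_⟩
      push Not
      exact hi
  have halg : ∀ i, (∃ x ∈ Ω, meromorphicOrderAt (z i) x < 0) ∨ AlgDep Ω' (z i₀) (z i) := by
    intro i
    rcases hi₀ with h | h
    · exact Or.inl (h i)
    · rcases hzalg i with h1 | h1
      · exact Or.inl h1
      · exact Or.inr (Pool.Agent.W462.GF.alg Ω' φ (z i₀) (z i) Metric.isOpen_ball hΩ'p
          ⟨t₁, ht₁'⟩ hdφ (hdz i₀) (hdz i) hφnc (hnc i₀) ((hzalg i₀).resolve_left h) h1)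
  have hcase' : ∀ i, (∃ x ∈ Ω, meromorphicOrderAt (z i) x < 0) ∨ ∀ x ∈ Ω, AnalyticAt ℂ (z i) x := by
    intro i
    by_cases h : ∃ x ∈ Ω, meromorphicOrderAt (z i) x < 0
    · exact Or.inl h
    · push Not at h
      exact Or.inr fun x hx => ((hznf i hx).meromorphicOrderAt_nonneg_iff_analyticAt).1 (h x hx)
  have hH' : ∀ i l, i ≠ l → ∀ p q : ℚ, ∃ t ∈ Ω, (∀ i, AnalyticAt ℂ (z i) t) ∧
      z i t ≠ p * z l t + q := by
    intro i l hil p q
    obtain ⟨t, ht, h1, h2, h3⟩ := hH i l hil p q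
    have hev : {s | y i s ≠ p * y l s + q} ∈ 𝓝 t := by
      have hca : ContinuousAt (fun s => y i s - (p * y l s + q)) t :=
        h1.continuousAt.sub ((continuousAt_const.mul h2.continuousAt).add continuousAt_const)
      filter_upwards [hca.eventually_ne (sub_ne_zero.2 h3)] with s hs
      exact sub_ne_zero.1 hs
    obtain ⟨s, hs1, hs2⟩ := hpt t ht _ hev
    refine ⟨s, hs1.1, (hGyG hs1).2, ?_⟩
    rw [(hzy i s hs1.1 (hs1.2 i)).self_of_nhds, (hzy l s hs1.1 (hs1.2 l)).self_of_nhds]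
    exact hs2
  -- the zero sets
  let x : ℂ → Option (Fin n) → ℂ := fun t o => o.elim (y i₀ t) (fun i => Gamma (y i t))
  have hNc : (⋃ i, ({t | AnalyticAt ℂ (y i) t}ᶜ ∩ Ω)).Countable :=
    Set.countable_iUnion fun i => (hy i).countable_compl_analyticAt_inter
  have hzero : ∀ P : MvPolynomial (Option (Fin n)) ℂ, P ≠ 0 →
      {t | t ∈ Ω ∧ MvPolynomial.eval (x t) P = 0}.Countable := by
    intro P hP
    obtain ⟨M, hM⟩ : ∃ M : ℕ, ∀ e ∈ P.support, ∀ i, e (some i) + 1 ≤ M := by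
      refine ⟨P.support.sup (fun e => ∑ o, e o) + 1, fun e he i => ?_⟩
      have h1 : e (some i) ≤ ∑ o, e o :=
        Finset.single_le_sum (f := fun o => e o) (fun _ _ => Nat.zero_le _) (Finset.mem_univ _)
      have h2 : ∑ o, e o ≤ P.support.sup (fun e => ∑ o, e o) :=
        Finset.le_sup (f := fun e : Option (Fin n) →₀ ℕ => ∑ o, e o) he
      omega
    have hnv := nonvanish hΩ hc z hz i₀ hcase' hH' Ω' Metric.isOpen_ball hΩ'p ⟨t₁, ht₁'⟩
      (fun t ht => hGyG (hρB ht)) (fun i => Or.inr (hnc i)) (hnc i₀) halg P hP M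
      (fun e he i => by have := hM e he i; omega)
    have hPhi : AnalyticOnNhd ℂ (Phi z (z i₀) M P) G := by
      intro t ht
      unfold Phi
      apply Finset.analyticAt_fun_sum
      intro e _
      refine AnalyticAt.fun_mul (analyticAt_const.fun_mul ((ht.2 i₀).fun_pow _)) ?_
      apply Finset.analyticAt_fun_prod
      intro i _
      exact (analyticAt_gamma_comp (ht.2 i)).fun_pow _
    have hcz := zeros_countable hGp hPhi (by
      obtain ⟨t, h1, h2, h3⟩ := hnv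
      exact ⟨t, ⟨h1, h2⟩, h3⟩)
    refine (hNc.union hcz).mono ?_
    rintro t ⟨ht, ht0⟩
    by_cases hty : ∀ i, AnalyticAt ℂ (y i) t
    · right
      refine ⟨hGyG ⟨ht, hty⟩, ?_⟩
      have hzt : ∀ i, z i t = y i t := fun i => (hzy i t ht (hty i)).self_of_nhds
      unfold Phi
      simp only [hzt]
      by_cases hp : ∀ i, ∀ m : ℕ, y i t ≠ -m
      · have h2 : ∀ e ∈ P.support, P.coeff e * y i₀ t ^ e none *
            ∏ i, (Gamma (y i t))⁻¹ ^ (M - e (some i)) =
            (∏ i, (Gamma (y i t))⁻¹ ^ M) * (P.coeff e * ∏ o, x t o ^ e o) := by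
          intro e he
          rw [Fintype.prod_option]
          have h4 : ∏ i, (Gamma (y i t))⁻¹ ^ (M - e (some i)) =
              (∏ i, (Gamma (y i t))⁻¹ ^ M) * ∏ i, Gamma (y i t) ^ e (some i) := by
            rw [← Finset.prod_mul_distrib]
            refine Finset.prod_congr rfl (fun i _ => ?_)
            have h5 : Gamma (y i t) ≠ 0 := Complex.Gamma_ne_zero (hp i)
            have h6 : M = (M - e (some i)) + e (some i) := by
              have := hM e he i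
              omega
            conv_rhs => rw [h6, pow_add, mul_assoc, ← mul_pow, inv_mul_cancel₀ h5, one_pow,
              mul_one]
          rw [h4]
          simp only [x, Option.elim_none, Option.elim_some]
          ring
        rw [Finset.sum_congr rfl h2, ← Finset.mul_sum]
        rw [MvPolynomial.eval_eq'] at ht0
        rw [ht0, mul_zero]
      · push Not at hp
        obtain ⟨i, m, him⟩ := hp
        apply Finset.sum_eq_zero
        intro e he
        apply mul_eq_zero_of_right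
        apply Finset.prod_eq_zero (Finset.mem_univ i)
        rw [him, Complex.Gamma_neg_nat_eq_zero, inv_zero]
        apply zero_pow
        have := hM e he i
        omega
    · push Not at hty
      obtain ⟨i, hi⟩ := hty
      left
      exact Set.mem_iUnion.2 ⟨i, hi, ht⟩
  have := countable_mv F (Option (Fin n))
  refine (Set.countable_iUnion (fun P : {P : MvPolynomial (Option (Fin n)) F // P ≠ 0} =>
    hzero (MvPolynomial.map (algebraMap F ℂ) P.1) (fun h =>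
      P.2 ((MvPolynomial.map_injective _ (algebraMap F ℂ).injective) (by rw [h, map_zero]))))).mono ?_
  rintro t ⟨ht, htd⟩
  have hcard : (((Fintype.card (Option (Fin n))) : ℕ) : Cardinal) = ((n + 1 : ℕ) : Cardinal) := by
    simp
  obtain ⟨P, hP, hP0⟩ := dep_of_lt (F := F) (K := IntermediateField.adjoin F
      (Set.range (fun i => y i t) ∪ Set.range fun i => Gamma (y i t))) (v := x t) (by
    intro o
    rcases o with _ | i
    · exact IntermediateField.subset_adjoin _ _ (Or.inl ⟨i₀, rfl⟩)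
    · exact IntermediateField.subset_adjoin _ _ (Or.inr ⟨i, rfl⟩)) (by rw [hcard]; exact htd)
  refine Set.mem_iUnion.2 ⟨⟨P, hP⟩, ht, ?_⟩
  rw [MvPolynomial.eval_map, ← MvPolynomial.aeval_def]
  exact hP0

end Pool.Agent.Helper6K9.GM
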