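import Pool.Agent.Helper6K9.GM.Loc

set_option autoImplicit false

/-!
# Values of the Gamma function at meromorphic functions of several variables with poles
-/

namespace Pool.Agent.Helper6K9.GM

open Complex Filter Topology Set Pool.Agent.W175.GF Pool.Agent.W266.GF Pool.Agent.Helper417.Mer

variable {V : Type} [NormedAddCommGroup V] [NormedSpace ℂ V]

/-- the function `y` is a quotient of holomorphic functions near `x` (its values on the zero set of
the denominator do not matter) -/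
def QuotAt (y : V → ℂ) (x : V) : Prop :=
  ∃ f g : V → ℂ, AnalyticAt ℂ f x ∧ AnalyticAt ℂ g x ∧ (¬ ∀ᶠ z in 𝓝 x, g z = 0) ∧
    ∀ᶠ z in 𝓝 x, g z ≠ 0 → y z = f z / g z

/-- `x` is a pole of `y`: near `x` the function `y` is a quotient of holomorphic functions `f / g` with
`g x = 0`, `f x ≠ 0` -/
def PoleAt (y : V → ℂ) (x : V) : Prop :=
  ∃ f g : V → ℂ, AnalyticAt ℂ f x ∧ AnalyticAt ℂ g x ∧ (¬ ∀ᶠ z in 𝓝 x, g z = 0) ∧
    (∀ᶠ z in 𝓝 x, g z ≠ 0 → y z = f z / g z) ∧ g x = 0 ∧ f x ≠ 0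

/-- the germ of an analytic function is determined near `x` -/
theorem germ_mul {a b : V → ℂ} {x : V} (ha : AnalyticAt ℂ a x) (hb : AnalyticAt ℂ b x)
    (ha0 : ¬ ∀ᶠ z in 𝓝 x, a z = 0) (hb0 : ¬ ∀ᶠ z in 𝓝 x, b z = 0) :
    ¬ ∀ᶠ z in 𝓝 x, a z * b z = 0 := by
  intro hab
  obtain ⟨ρ, hρ, hball⟩ := Metric.eventually_nhds_iff_ball.1
    ((ha.eventually_analyticAt.and hb.eventually_analyticAt).and hab)
  have haB : AnalyticOnNhd ℂ a (Metric.ball x ρ) := fun z hz => (hball z hz).1.1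
  have hbB : AnalyticOnNhd ℂ b (Metric.ball x ρ) := fun z hz => (hball z hz).1.2
  have hp : IsPreconnected (Metric.ball x ρ) := by
    let _ : NormedSpace ℝ V := NormedSpace.restrictScalars ℝ ℂ V
    exact (convex_ball x ρ).isPreconnected
  have hex : ∃ p ∈ Metric.ball x ρ, a p ≠ 0 := by
    by_contra hcon
    push Not at hcon
    exact ha0 (Filter.eventually_of_mem (Metric.ball_mem_nhds x hρ) hcon)
  obtain ⟨p, hp1, hp2⟩ := hex
  have hev : ∀ᶠ z in 𝓝 p, b z = 0 := by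
    filter_upwards [(haB p hp1).continuousAt.eventually_ne hp2,
      Metric.isOpen_ball.mem_nhds hp1] with z h1 h2
    exact (mul_eq_zero.1 (hball z h2).2).resolve_left h1
  have hall := hbB.eqOn_zero_of_preconnected_of_eventuallyEq_zero hp hp1 hev
  exact hb0 (Filter.eventually_of_mem (Metric.ball_mem_nhds x hρ) fun z hz => hall hz)

theorem germ_prod {α : Type} (S : Finset α) {a : α → V → ℂ} {x : V}
    (ha : ∀ i ∈ S, AnalyticAt ℂ (a i) x) (ha0 : ∀ i ∈ S, ¬ ∀ᶠ z in 𝓝 x, a i z = 0) :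
    AnalyticAt ℂ (fun z => ∏ i ∈ S, a i z) x ∧ ¬ ∀ᶠ z in 𝓝 x, ∏ i ∈ S, a i z = 0 := by
  classical
  induction S using Finset.induction_on with
  | empty =>
    simp only [Finset.prod_empty, one_ne_zero]
    refine ⟨analyticAt_const, fun h => ?_⟩
    exact h.self_of_nhds
  | insert i S hi ih =>
    obtain ⟨h1, h2⟩ := ih (fun i hi => ha i (Finset.mem_insert_of_mem hi))
      (fun i hi => ha0 i (Finset.mem_insert_of_mem hi))
    simp only [Finset.prod_insert hi]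
    exact ⟨(ha i (Finset.mem_insert_self _ _)).mul h1,
      germ_mul (ha i (Finset.mem_insert_self _ _)) h1 (ha0 i (Finset.mem_insert_self _ _)) h2⟩

/-- a generic point -/
theorem generic [FiniteDimensional ℂ V] {Ω : Set V} (hΩo : IsOpen Ω) (hΩp : IsPreconnected Ω)
    (hΩn : Ω.Nonempty) (H : Set (V → ℂ)) (hH : H.Countable)
    (han : ∀ h ∈ H, AnalyticOnNhd ℂ h Ω) (hne : ∀ h ∈ H, ∃ t ∈ Ω, h t ≠ 0) :
    ∃ t ∈ Ω, ∀ h ∈ H, h t ≠ 0 := by
  have : CompleteSpace V := FiniteDimensional.complete ℂ V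
  have := hH.to_subtype
  have hd : Dense (⋂ h : H, ({t | t ∈ Ω ∧ h.1 t ≠ 0} ∪ (closure Ω)ᶜ)) := by
    apply dense_iInter_of_isOpen
    · rintro ⟨h, hh⟩
      refine IsOpen.union ?_ isClosed_closure.isOpen_compl
      have h1 : ContinuousOn h Ω := (han h hh).continuousOn
      exact h1.isOpen_inter_preimage hΩo isOpen_ne
    · rintro ⟨h, hh⟩
      rw [dense_iff_inter_open]
      intro O hO hOn
      by_cases hOΩ : (O ∩ Ω).Nonempty
      · by_contra hcon
        obtain ⟨z, hzO, hzΩ⟩ := hOΩ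
        have h2 : ∀ t ∈ O ∩ Ω, h t = 0 := by
          intro t ht
          by_contra hne'
          exact hcon ⟨t, ht.1, Or.inl ⟨ht.2, hne'⟩⟩
        have h3 : h =ᶠ[𝓝 z] 0 := by
          filter_upwards [(hO.inter hΩo).mem_nhds ⟨hzO, hzΩ⟩] with t ht
          exact h2 t ht
        obtain ⟨t, ht, ht0⟩ := hne h hh
        exact ht0 ((han h hh).eqOn_zero_of_preconnected_of_eventuallyEq_zero hΩp hzΩ h3 ht)
      · obtain ⟨z, hz⟩ := hOn
        refine ⟨z, hz, Or.inr ?_⟩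
        intro hzc
        obtain ⟨w, hw⟩ := mem_closure_iff.1 hzc O hO hz
        exact hOΩ ⟨w, hw⟩
  obtain ⟨t, ht1, ht2⟩ := hd.inter_open_nonempty Ω hΩo hΩn
  refine ⟨t, ht1, fun h hh => ?_⟩
  rcases Set.mem_iInter.1 ht2 ⟨h, hh⟩ with h1 | h1
  · exact h1.2
  · exact absurd (subset_closure ht1) h1

theorem mer_congr {r : ℝ} {f g : ℂ → ℂ} (hf : Mer r f) (h : ∀ s ∈ U r, g s = f s) : Mer r g := by
  obtain ⟨h1, D, C, h2⟩ := hf
  exact ⟨h1.congr h, D, C, fun s hs => by rw [h s hs]; exact h2 s hs⟩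

theorem analyticAt_gamma_comp {y : V → ℂ} {t : V} (hy : AnalyticAt ℂ y t) :
    AnalyticAt ℂ (fun z => (Gamma (y z))⁻¹) t := by
  have h1 : AnalyticAt ℂ (fun w : ℂ => (Gamma w)⁻¹) (y t) :=
    differentiable_one_div_Gamma.analyticAt _
  exact h1.fun_comp_of_eq hy rfl

/-- the coefficients of a relation with respect to one function with a pole vanish -/
theorem claim [FiniteDimensional ℂ V] {ι : Type} [Fintype ι] [DecidableEq ι] (j : ι)
    {G : Set V} (hGp : IsPreconnected G) {x : V}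
    (hthin : ∃ h : V → ℂ, AnalyticAt ℂ h x ∧ (¬ ∀ᶠ z in 𝓝 x, h z = 0) ∧
      ∀ᶠ z in 𝓝 x, h z ≠ 0 → z ∈ G)
    (y : ι → V → ℂ) (N : Finset (ι → ℕ)) (c : (ι → ℕ) → V → ℂ)
    (hy : ∀ i, QuotAt (y i) x) (hc : ∀ k ∈ N, QuotAt (c k) x)
    (hyG : ∀ i, AnalyticOnNhd ℂ (y i) G) (hcG : ∀ k ∈ N, AnalyticOnNhd ℂ (c k) G)
    (hj : PoleAt (y j) x)
    (hH : ∀ i l, i ≠ l → ∀ p q : ℚ, ¬ ∀ t ∈ G, y i t = p * y l t + q)
    (hrel : ∀ t ∈ G, ∑ k ∈ N, c k t * ∏ i, (Gamma (y i t))⁻¹ ^ k i = 0) (m : ℕ) :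
    ∀ t ∈ G, ∑ k ∈ N.filter (fun k => k j = m),
      c k t * ∏ i ∈ Finset.univ.erase j, (Gamma (y i t))⁻¹ ^ k i = 0 := by
  classical
  set Cm : V → ℂ := fun t => ∑ k ∈ N.filter (fun k => k j = m),
      c k t * ∏ i ∈ Finset.univ.erase j, (Gamma (y i t))⁻¹ ^ k i with hCm
  have hCmG : AnalyticOnNhd ℂ Cm G := by
    intro t ht
    rw [hCm]
    apply Finset.analyticAt_fun_sum
    intro k hk
    apply AnalyticAt.fun_mul (hcG k (Finset.mem_filter.1 hk).1 t ht)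
    apply Finset.analyticAt_fun_prod
    intro i _
    exact (analyticAt_gamma_comp (hyG i t ht)).fun_pow _
  obtain ⟨h, hh1, hh2, hh3⟩ := hthin
  choose f g hf hg hg0 hyq using hy
  choose fc gc hfc hgc hgc0 hcq using fun k : {k // k ∈ N} => hc k.1 k.2
  obtain ⟨fj, gj, hfj, hgj, hgj0, hjq, hgjx, hfjx⟩ := hj
  -- the product of all denominators
  obtain ⟨hT1a, hT1b⟩ := germ_prod Finset.univ (a := g) (x := x) (fun i _ => hg i) (fun i _ => hg0 i)
  obtain ⟨hT2a, hT2b⟩ := germ_prod Finset.univ (a := gc) (x := x) (fun i _ => hgc i)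
    (fun i _ => hgc0 i)
  set T : V → ℂ := fun z => (h z * gj z) * ((∏ i, g i z) * ∏ k, gc k z) with hTdef
  have hTa : AnalyticAt ℂ T x := (hh1.mul hgj).mul (hT1a.mul hT2a)
  have hTb : ¬ ∀ᶠ z in 𝓝 x, T z = 0 :=
    germ_mul (hh1.mul hgj) (hT1a.mul hT2a) (germ_mul hh1 hgj hh2 hgj0)
      (germ_mul hT1a hT2a hT1b hT2b)
  have hTne : ∀ z, T z ≠ 0 → h z ≠ 0 ∧ gj z ≠ 0 ∧ (∀ i, g i z ≠ 0) ∧ ∀ k, gc k z ≠ 0 := by
    intro z hz
    have h1 := left_ne_zero_of_mul hz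
    have h2 := right_ne_zero_of_mul hz
    refine ⟨left_ne_zero_of_mul h1, right_ne_zero_of_mul h1, fun i => ?_, fun k => ?_⟩
    · exact Finset.prod_ne_zero_iff.1 (left_ne_zero_of_mul h2) i (Finset.mem_univ i)
    · exact Finset.prod_ne_zero_iff.1 (right_ne_zero_of_mul h2) k (Finset.mem_univ k)
  -- a ball
  have hev : ∀ᶠ z in 𝓝 x, ((AnalyticAt ℂ T z ∧ (h z ≠ 0 → z ∈ G)) ∧
      ((∀ i, AnalyticAt ℂ (f i) z ∧ AnalyticAt ℂ (g i) z ∧ (g i z ≠ 0 → y i z = f i z / g i z)) ∧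
      (∀ k, AnalyticAt ℂ (fc k) z ∧ AnalyticAt ℂ (gc k) z ∧
        (gc k z ≠ 0 → c k.1 z = fc k z / gc k z)))) ∧
      (AnalyticAt ℂ fj z ∧ AnalyticAt ℂ gj z ∧ (gj z ≠ 0 → y j z = fj z / gj z)) := by
    refine ((hTa.eventually_analyticAt.and hh3).and (Filter.Eventually.and ?_ ?_)).and ?_
    · rw [Filter.eventually_all]
      intro i
      exact (hf i).eventually_analyticAt.and ((hg i).eventually_analyticAt.and (hyq i))
    · rw [Filter.eventually_all]
      intro k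
      exact (hfc k).eventually_analyticAt.and ((hgc k).eventually_analyticAt.and (hcq k))
    · exact hfj.eventually_analyticAt.and (hgj.eventually_analyticAt.and hjq)
  obtain ⟨ρ, hρ, hB⟩ := Metric.eventually_nhds_iff_ball.1 hev
  set B := Metric.ball x ρ with hBdef
  have hTd : DifferentiableOn ℂ T B := fun z hz =>
    (hB z hz).1.1.1.differentiableAt.differentiableWithinAt
  set O : Set V := {z | z ∈ B ∧ T z ≠ 0} with hOdef
  have hOp : IsPreconnected O := ThinAux.ball_diff hTd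
  have hOo : IsOpen O := hTd.continuousOn.isOpen_inter_preimage Metric.isOpen_ball isOpen_ne
  have hOn : O.Nonempty := by
    obtain ⟨z, ⟨-, hz1⟩, hz2⟩ := ThinAux.ball_nonzero hρ hTd hTb isOpen_univ
      ⟨x, mem_univ x, Metric.mem_ball_self hρ⟩
    exact ⟨z, hz1, hz2⟩
  have hOG : O ⊆ G := fun z hz => (hB z hz.1).1.1.2 (hTne z hz.2).1
  -- identity theorem from `O` to `G`
  have hid : ∀ F : V → ℂ, AnalyticOnNhd ℂ F G → (∀ z ∈ O, F z = 0) → ∀ z ∈ G, F z = 0 := by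
    intro F hF h0 z hz
    obtain ⟨w, hw⟩ := hOn
    exact hF.eqOn_zero_of_preconnected_of_eventuallyEq_zero hGp (hOG hw)
      (Filter.eventually_of_mem (hOo.mem_nhds hw) h0) hz
  by_contra hcon
  -- a generic point of `O`
  let H : Set (V → ℂ) := {Cm} ∪ Set.range (fun z : {il : ι × ι // il.1 ≠ il.2} × ℚ × ℚ =>
    fun t => y z.1.1.1 t - ((z.2.1 : ℂ) * y z.1.1.2 t + (z.2.2 : ℂ)))
  obtain ⟨p, hpO, hp⟩ := generic hOo hOp hOn H
    ((Set.countable_singleton _).union (Set.countable_range _)) (by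
    rintro φ (rfl | ⟨z, rfl⟩)
    · exact hCmG.mono hOG
    · exact ((hyG _).mono hOG).sub ((analyticOnNhd_const.mul ((hyG _).mono hOG)).add
        analyticOnNhd_const)) (by
    rintro φ (rfl | ⟨z, rfl⟩)
    · by_contra hc0
      push Not at hc0
      exact hcon (hid Cm hCmG hc0)
    · by_contra hc0
      push Not at hc0
      apply hH z.1.1.1 z.1.1.2 z.1.2 z.2.1 z.2.2
      intro t ht
      refine sub_eq_zero.1 (hid (fun t => y z.1.1.1 t - ((z.2.1 : ℂ) * y z.1.1.2 t + (z.2.2 : ℂ)))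
        ((hyG _).sub ((analyticOnNhd_const.mul (hyG _)).add analyticOnNhd_const)) hc0 t ht))
  have hp1 : Cm p ≠ 0 := hp _ (Or.inl rfl)
  have hp2 : ∀ i l, i ≠ l → ∀ a b : ℚ, y i p ≠ a * y l p + b := by
    intro i l hil a b
    have := hp _ (Or.inr ⟨(⟨(i, l), hil⟩, a, b), rfl⟩)
    exact sub_ne_zero.1 this
  -- the line
  obtain ⟨hDo, hDp, -⟩ := ThinAux.line_facts x ρ x p hTd
  set D : Set ℂ := {t : ℂ | x + t • (p - x) ∈ B} with hD
  let ℓ : ℂ → V := fun u => x + u • (p - x)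
  have hℓ0 : ℓ 0 = x := by simp [ℓ]
  have hℓ1 : ℓ 1 = p := by simp [ℓ]
  have h0D : (0 : ℂ) ∈ D := by
    show ℓ 0 ∈ B
    rw [hℓ0]; exact Metric.mem_ball_self hρ
  have h1D : (1 : ℂ) ∈ D := by
    show ℓ 1 ∈ B
    rw [hℓ1]; exact hpO.1
  have hℓa : ∀ u, AnalyticAt ℂ ℓ u := fun u => by
    exact analyticAt_const.add (analyticAt_id.smul analyticAt_const)
  have hcompA : ∀ (F : V → ℂ) (u : ℂ), AnalyticAt ℂ F (ℓ u) → AnalyticAt ℂ (fun u => F (ℓ u)) u :=
    fun F u hF => AnalyticAt.fun_comp hF (hℓa u)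
  -- a germ which does not vanish at `p`
  have hline : ∀ F : V → ℂ, (∀ z ∈ B, AnalyticAt ℂ F z) → F p ≠ 0 →
      ¬ ∀ᶠ u in 𝓝 (0 : ℂ), F (ℓ u) = 0 := by
    intro F hF hFp hev
    have h1 : AnalyticOnNhd ℂ (fun u => F (ℓ u)) D := fun u hu => hcompA F u (hF _ hu)
    have h2 := h1.eqOn_zero_of_preconnected_of_eventuallyEq_zero hDp h0D hev h1D
    simp only [hℓ1, Pi.zero_apply] at h2
    exact hFp h2
  have hTDd : DifferentiableOn ℂ (fun u => T (ℓ u)) D := fun u hu =>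
    (hcompA T u (hB _ hu).1.1.1).differentiableAt.differentiableWithinAt
  set D' : Set ℂ := {t | t ∈ D ∧ T (ℓ t) ≠ 0} with hD'
  have hD'p : IsPreconnected D' := by
    refine ThinAux.one_var hDo hDp hTDd h1D ?_
    simp only [hℓ1]
    exact hpO.2
  have hD'o : IsOpen D' := hTDd.continuousOn.isOpen_inter_preimage hDo isOpen_ne
  have h1D' : (1 : ℂ) ∈ D' := ⟨h1D, by rw [hℓ1]; exact hpO.2⟩
  have hD'O : ∀ u ∈ D', ℓ u ∈ O := fun u hu => ⟨hu.1, hu.2⟩
  -- radii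
  have hTq := mer_quot (f := fun _ => 1) (g := fun u => T (ℓ u)) analyticAt_const
    (hcompA T 0 (by rw [hℓ0]; exact hTa))
    (hline T (fun z hz => (hB z hz).1.1.1) hpO.2)
  obtain ⟨rT, hrT, hrT'⟩ := hTq
  have hyM : ∀ i, ∃ r₀ : ℝ, 0 < r₀ ∧ ∀ r : ℝ, 0 < r → r ≤ r₀ → (∀ s ∈ U r, g i (ℓ s) ≠ 0) ∧
      Mer r (fun s => f i (ℓ s) / g i (ℓ s)) := fun i =>
    mer_quot (f := fun u => f i (ℓ u)) (g := fun u => g i (ℓ u))
      (hcompA _ 0 (by rw [hℓ0]; exact hf i)) (hcompA _ 0 (by rw [hℓ0]; exact hg i))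
      (hline (g i) (fun z hz => ((hB z hz).1.2.1 i).2.1) ((hTne p hpO.2).2.2.1 i))
  have hcM : ∀ k, ∃ r₀ : ℝ, 0 < r₀ ∧ ∀ r : ℝ, 0 < r → r ≤ r₀ → (∀ s ∈ U r, gc k (ℓ s) ≠ 0) ∧
      Mer r (fun s => fc k (ℓ s) / gc k (ℓ s)) := fun k =>
    mer_quot (f := fun u => fc k (ℓ u)) (g := fun u => gc k (ℓ u))
      (hcompA _ 0 (by rw [hℓ0]; exact hfc k)) (hcompA _ 0 (by rw [hℓ0]; exact hgc k))
      (hline (gc k) (fun z hz => ((hB z hz).1.2.2 k).2.1) ((hTne p hpO.2).2.2.2 k))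
  choose ry hry hry' using hyM
  choose rc hrc hrc' using hcM
  obtain ⟨rD, hrD, hrD'⟩ := Metric.isOpen_iff.1 hDo 0 h0D
  obtain ⟨r1, hr1, hr1y⟩ : ∃ r : ℝ, 0 < r ∧ ∀ i, r ≤ ry i := by
    refine ⟨Finset.univ.inf' ⟨j, Finset.mem_univ j⟩ ry, ?_,
      fun i => Finset.inf'_le _ (Finset.mem_univ i)⟩
    rw [Finset.lt_inf'_iff]
    intro i _
    exact hry i
  obtain ⟨r2, hr2, hr2c⟩ : ∃ r : ℝ, 0 < r ∧ ∀ k, r ≤ rc k := by
    by_cases hemp : Nonempty {k // k ∈ N}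
    · obtain ⟨k0⟩ := hemp
      refine ⟨Finset.univ.inf' ⟨k0, Finset.mem_univ k0⟩ rc, ?_,
        fun i => Finset.inf'_le _ (Finset.mem_univ i)⟩
      rw [Finset.lt_inf'_iff]
      intro i _
      exact hrc i
    · exact ⟨1, one_pos, fun k => absurd ⟨k⟩ hemp⟩
  let r : ℝ := min (1 / 2) (min (min rT rD) (min r1 r2))
  have hr0 : 0 < r := by
    simp only [r, lt_min_iff]
    exact ⟨by norm_num, ⟨hrT, hrD⟩, hr1, hr2⟩
  have hrlt : r < 1 := lt_of_le_of_lt (min_le_left _ _) (by norm_num)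
  have hrrT : r ≤ rT := (min_le_right _ _).trans ((min_le_left _ _).trans (min_le_left _ _))
  have hrrD : r ≤ rD := (min_le_right _ _).trans ((min_le_left _ _).trans (min_le_right _ _))
  have hrr1 : r ≤ r1 := (min_le_right _ _).trans ((min_le_right _ _).trans (min_le_left _ _))
  have hrr2 : r ≤ r2 := (min_le_right _ _).trans ((min_le_right _ _).trans (min_le_right _ _))
  have hUD' : U r ⊆ D' := by
    intro s hs
    refine ⟨hrD' ?_, (hrT' r hr0 hrrT).1 s hs⟩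
    rw [Metric.mem_ball, dist_zero_right]
    exact lt_of_lt_of_le hs.2 hrrD
  have hUO : ∀ s ∈ U r, ℓ s ∈ O := fun s hs => hD'O s (hUD' hs)
  have hYM : ∀ i, Mer r (fun s => y i (ℓ s)) := by
    intro i
    refine mer_congr (hry' i r hr0 (hrr1.trans (hr1y i))).2 ?_
    intro s hs
    exact ((hB _ (hUO s hs).1).1.2.1 i).2.2 ((hTne _ (hUO s hs).2).2.2.1 i)
  have hCM : ∀ k ∈ N, Mer r (fun s => c k (ℓ s)) := by
    intro k hk
    refine mer_congr (hrc' ⟨k, hk⟩ r hr0 (hrr2.trans (hr2c _))).2 ?_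
    intro s hs
    exact ((hB _ (hUO s hs).1).1.2.2 ⟨k, hk⟩).2.2 ((hTne _ (hUO s hs).2).2.2.2 _)
  have key := local_collect j r hr0 hrlt (fun i s => y i (ℓ s)) N (fun k s => c k (ℓ s)) hYM hCM
    (by
      intro M r' hr' hr'r
      have e1 : ∀ᶠ u in 𝓝 (0 : ℂ), ‖fj x‖ / 2 < ‖fj (ℓ u)‖ := by
        have : ContinuousAt (fun u => ‖fj (ℓ u)‖) 0 :=
          (hcompA fj 0 (by rw [hℓ0]; exact hfj)).continuousAt.norm
        apply this.eventually_const_lt
        simp only [hℓ0]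
        have := norm_pos_iff.2 hfjx
        linarith
      have e2 : ∀ᶠ u in 𝓝 (0 : ℂ), ‖gj (ℓ u)‖ < ‖fj x‖ / 2 / (|M| + 1) := by
        have : ContinuousAt (fun u => ‖gj (ℓ u)‖) 0 :=
          (hcompA gj 0 (by rw [hℓ0]; exact hgj)).continuousAt.norm
        apply this.eventually_lt_const
        simp only [hℓ0, hgjx, norm_zero]
        have := norm_pos_iff.2 hfjx
        positivity
      obtain ⟨δ, hδ, hδ'⟩ := Metric.eventually_nhds_iff_ball.1 (e1.and e2)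
      obtain ⟨s, hs⟩ := nonempty_U (lt_min hδ hr')
      have hsr : s ∈ U r := U_subset ((min_le_right _ _).trans hr'r) hs
      refine ⟨s, U_subset (min_le_right _ _) hs, ?_⟩
      obtain ⟨e3, e4⟩ := hδ' s (by
        rw [Metric.mem_ball, dist_zero_right]
        exact lt_of_lt_of_le hs.2 (min_le_left _ _))
      have hgne : gj (ℓ s) ≠ 0 := (hTne _ (hUO s hsr).2).2.1
      have e5 : y j (ℓ s) = fj (ℓ s) / gj (ℓ s) := (hB _ (hUO s hsr).1).2.2.2 hgne
      show M < ‖y j (ℓ s)‖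
      rw [e5, norm_div, lt_div_iff₀ (norm_pos_iff.2 hgne)]
      have h6 : 0 < |M| + 1 := by positivity
      have h7 : M * ‖gj (ℓ s)‖ ≤ (|M| + 1) * ‖gj (ℓ s)‖ :=
        mul_le_mul_of_nonneg_right (by linarith [le_abs_self M]) (norm_nonneg _)
      have h8 : (|M| + 1) * ‖gj (ℓ s)‖ < (|M| + 1) * (‖fj x‖ / 2 / (|M| + 1)) :=
        mul_lt_mul_of_pos_left e4 h6
      have h9 : (|M| + 1) * (‖fj x‖ / 2 / (|M| + 1)) = ‖fj x‖ / 2 := by
        field_simp
      linarith)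
    (by
      intro i l hil a b hcon2
      have h1 : DifferentiableOn ℂ (fun u => y i (ℓ u) - (a * y l (ℓ u) + b)) D' := by
        intro u hu
        have h2 := hcompA (y i) u (hyG i _ (hOG (hD'O u hu)))
        have h3 := hcompA (y l) u (hyG l _ (hOG (hD'O u hu)))
        exact (h2.differentiableAt.sub ((h3.differentiableAt.const_mul _).add_const _)).differentiableWithinAt
      have h2 := ident hD'o hD'p h1 (isOpen_U r) (nonempty_U hr0) hUD'
        (fun s hs => by rw [hcon2 s hs, sub_self]) 1 h1D'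
      rw [hℓ1] at h2
      exact hp2 i l hil a b (sub_eq_zero.1 h2))
    (fun s hs => hrel _ (hOG (hUO s hs))) m
  have h1 : DifferentiableOn ℂ (fun u => Cm (ℓ u)) D' := fun u hu =>
    (hcompA Cm u (hCmG _ (hOG (hD'O u hu)))).differentiableAt.differentiableWithinAt
  have h2 := ident hD'o hD'p h1 (isOpen_U r) (nonempty_U hr0) hUD' key 1 h1D'
  rw [hℓ1] at h2
  exact hp1 h2

/-- the global theorem on the set `G` where all functions are analytic -/
theorem glob [FiniteDimensional ℂ V] : ∀ (n : ℕ) (ι : Type) [Fintype ι], Fintype.card ι = n →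
    ∀ (Ω G : Set V), IsPreconnected G →
    (∀ x ∈ Ω, ∃ h : V → ℂ, AnalyticAt ℂ h x ∧ (¬ ∀ᶠ z in 𝓝 x, h z = 0) ∧
      ∀ᶠ z in 𝓝 x, h z ≠ 0 → z ∈ G) →
    ∀ (y : ι → V → ℂ) (N : Finset (ι → ℕ)) (c : (ι → ℕ) → V → ℂ),
    (∀ i, ∀ x ∈ Ω, QuotAt (y i) x) → (∀ k ∈ N, ∀ x ∈ Ω, QuotAt (c k) x) →
    (∀ i, AnalyticOnNhd ℂ (y i) G) → (∀ k ∈ N, AnalyticOnNhd ℂ (c k) G) →
    (∀ i, ∃ x ∈ Ω, PoleAt (y i) x) →
    (∀ i l, i ≠ l → ∀ p q : ℚ, ¬ ∀ t ∈ G, y i t = p * y l t + q) →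
    (∀ t ∈ G, ∑ k ∈ N, c k t * ∏ i, (Gamma (y i t))⁻¹ ^ k i = 0) →
    ∀ k ∈ N, ∀ t ∈ G, c k t = 0 := by
  classical
  intro n
  induction n with
  | zero =>
    intro ι _ hι Ω G hGp hthin y N c hy hc hyG hcG hpole hH hrel k hk t ht
    have hemp : IsEmpty ι := Fintype.card_eq_zero_iff.1 hι
    have h1 := hrel t ht
    rw [Finset.sum_eq_single k] at h1
    · simpa using h1
    · intro b _ hb
      exact absurd (Subsingleton.elim b k) hb
    · intro h6
      exact absurd hk h6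
  | succ n ih =>
    intro ι _ hι Ω G hGp hthin y N c hy hc hyG hcG hpole hH hrel k₀ hk₀
    have hne : Nonempty ι := Fintype.card_pos_iff.1 (by omega)
    obtain ⟨j⟩ := hne
    obtain ⟨x, hx, hj⟩ := hpole j
    have h1 := claim j hGp (hthin x hx) y N c (fun i => hy i x hx) (fun k hk => hc k hk x hx)
      hyG hcG hj hH hrel (k₀ j)
    let res : (ι → ℕ) → ({i // i ≠ j} → ℕ) := fun k i => k i
    let ext : ({i // i ≠ j} → ℕ) → (ι → ℕ) := fun κ i => if h : i ≠ j then κ ⟨i, h⟩ else k₀ j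
    have hext : ∀ k : ι → ℕ, k j = k₀ j → ext (res k) = k := by
      intro k hk
      funext i
      by_cases h : i ≠ j
      · simp [ext, res, h]
      · push Not at h
        subst h
        simp [ext, hk]
    have hcard : Fintype.card {i // i ≠ j} = n := by
      rw [Fintype.card_subtype_compl, Fintype.card_subtype_eq, hι]
      rfl
    have hmem : ∀ κ ∈ (N.filter (fun k => k j = k₀ j)).image res, ext κ ∈ N := by
      intro κ hκ
      obtain ⟨k, hk, rfl⟩ := Finset.mem_image.1 hκ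
      obtain ⟨hk1, hk2⟩ := Finset.mem_filter.1 hk
      rw [hext k hk2]
      exact hk1
    have h2 := ih {i // i ≠ j} hcard Ω G hGp hthin (fun i => y i)
      ((N.filter (fun k => k j = k₀ j)).image res) (fun κ => c (ext κ))
      (fun i => hy i) (fun κ hκ => hc _ (hmem κ hκ)) (fun i => hyG i)
      (fun κ hκ => hcG _ (hmem κ hκ)) (fun i => hpole i)
      (fun i l hil => hH i l (fun h => hil (Subtype.ext h))) (by
      intro t ht
      have h3 := h1 t ht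
      rw [Finset.sum_image]
      · rw [← h3]
        apply Finset.sum_congr rfl
        intro k hk
        obtain ⟨hk1, hk2⟩ := Finset.mem_filter.1 hk
        rw [hext k hk2]
        congr 1
        rw [← Finset.prod_coe_sort (Finset.univ.erase j)]
        apply Fintype.prod_equiv (Equiv.subtypeEquivRight (fun i => by simp))
        intro i
        rfl
      · intro k hk k' hk' hkk
        rw [← hext k (Finset.mem_filter.1 hk).2, ← hext k' (Finset.mem_filter.1 hk').2, hkk])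
      (res k₀) (Finset.mem_image_of_mem _ (Finset.mem_filter.2 ⟨hk₀, rfl⟩))
    intro t ht
    have h3 := h2 t ht
    rw [hext k₀ rfl] at h3
    exact h3

end Pool.Agent.Helper6K9.GM
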