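import Pool.Agent.W175.GF.Final
import Pool.Agent.W266.GF.Basic
import Pool.Agent.Helper417.Mer.ThinCompl

set_option autoImplicit false

/-!
# Values of the Gamma function at meromorphic functions with a pole: the local step

The coefficients of a relation between the `1 / Γ (Y i)` on a punctured disc, collected according to
the exponent of one function `Y j` which has a pole, vanish.
-/

namespace Pool.Agent.Helper6K9.GM

open Complex Pool.Agent.W175.GF Pool.Agent.W266.GF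

/-- collecting the terms of a relation with respect to one function with a pole -/
theorem local_collect {ι : Type} [Fintype ι] [DecidableEq ι] (j : ι)
    (r : ℝ) (hr : 0 < r) (hr1 : r < 1) (Y : ι → ℂ → ℂ) (N : Finset (ι → ℕ))
    (C : (ι → ℕ) → ℂ → ℂ) (hY : ∀ i, Mer r (Y i)) (hC : ∀ k ∈ N, Mer r (C k))
    (hj : ∀ B r' : ℝ, 0 < r' → r' ≤ r → ∃ s ∈ U r', B < ‖Y j s‖)
    (hH : ∀ i l, i ≠ l → ∀ p q : ℚ, ¬ ∀ t ∈ U r, Y i t = p * Y l t + q)
    (hrel : ∀ s ∈ U r, ∑ k ∈ N, C k s * ∏ i, (Gamma (Y i s))⁻¹ ^ k i = 0) (m : ℕ) :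
    ∀ s ∈ U r, ∑ k ∈ N.filter (fun k => k j = m),
      C k s * ∏ i ∈ Finset.univ.erase j, (Gamma (Y i s))⁻¹ ^ k i = 0 := by
  classical
  let P : ι → Prop := fun i => ∃ (r' : ℝ) (m : ℕ) (a : ℂ) (K : ℝ), 0 < r' ∧ r' ≤ r ∧ 1 ≤ m ∧
    a ≠ 0 ∧ ∀ s ∈ U r', ‖Y i s - a * s⁻¹ ^ m‖ ≤ K * ‖s‖⁻¹ ^ (m - 1)
  have hrad : ∀ i, ∃ ri : ℝ, 0 < ri ∧ ri ≤ r ∧
      (P i → ∃ (m : ℕ) (a : ℂ) (K : ℝ), 1 ≤ m ∧ a ≠ 0 ∧
        ∀ s ∈ U ri, ‖Y i s - a * s⁻¹ ^ m‖ ≤ K * ‖s‖⁻¹ ^ (m - 1)) ∧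
      (¬ P i → ∃ B : ℝ, ∀ s ∈ U ri, ‖Y i s‖ ≤ B) := by
    intro i
    by_cases hP : P i
    · obtain ⟨r', m, a, K, h5, h6, h7, h8, h9⟩ := hP
      exact ⟨r', h5, h6, fun _ => ⟨m, a, K, h7, h8, h9⟩,
        fun hn => absurd ⟨r', m, a, K, h5, h6, h7, h8, h9⟩ hn⟩
    · rcases Pool.Agent.W505.GF.cls r (Y i) hr (hY i) with h5 | h5
      · obtain ⟨r', B, h6, h7, h8⟩ := h5
        exact ⟨r', h6, h7, fun h => absurd h hP, fun _ => ⟨B, h8⟩⟩
      · exact absurd h5 hP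
  choose R hR0 hRr hRP hRn using hrad
  obtain ⟨r0, hr0, hr0R⟩ : ∃ r0 : ℝ, 0 < r0 ∧ ∀ i, r0 ≤ R i := by
    refine ⟨Finset.univ.inf' ⟨j, Finset.mem_univ j⟩ R, ?_,
      fun i => Finset.inf'_le _ (Finset.mem_univ i)⟩
    rw [Finset.lt_inf'_iff]
    intro i _
    exact hR0 i
  have hr0r : r0 ≤ r := (hr0R j).trans (hRr j)
  have hr01 : r0 < 1 := lt_of_le_of_lt hr0r hr1
  have hPj : P j := by
    by_contra hcon
    obtain ⟨B, hB⟩ := hRn j hcon
    obtain ⟨s, hs, hs'⟩ := hj B (R j) (hR0 j) (hRr j)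
    exact absurd (hB s hs) (not_le.2 hs')
  -- bounds for `1/Γ (Y i)`, `i ∉ P`
  have hbd : ∀ i, ¬ P i → ∃ B : ℝ, ∀ s ∈ U r0, ‖(Gamma (Y i s))⁻¹‖ ≤ B := by
    intro i hi
    obtain ⟨B, hB⟩ := hRn i hi
    obtain ⟨B', hB'⟩ := invGamma_bdd B
    exact ⟨B', fun s hs => hB' _ (hB s (U_subset (hr0R i) hs))⟩
  have hdGr : ∀ i, DifferentiableOn ℂ (fun s => (Gamma (Y i s))⁻¹) (U r) := by
    intro i
    exact differentiable_one_div_Gamma.comp_differentiableOn (hY i).1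
  have hdG : ∀ i, DifferentiableOn ℂ (fun s => (Gamma (Y i s))⁻¹) (U r0) := fun i =>
    (hdGr i).mono (U_subset hr0r)
  let resP : (ι → ℕ) → ({i // P i} → ℕ) := fun k i => k i
  let D : ({i // P i} → ℕ) → ℂ → ℂ := fun κ s =>
    ∑ k ∈ N.filter (fun k => resP k = κ), C k s * ∏ i : {i // ¬ P i}, (Gamma (Y i s))⁻¹ ^ k i
  have hDrel : ∀ s ∈ U r0, ∑ κ ∈ N.image resP, D κ s *
      ∏ i : {i // P i}, (Gamma (Y i s))⁻¹ ^ κ i = 0 := by
    intro s hs
    rw [← hrel s (U_subset hr0r hs)]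
    rw [← Finset.sum_fiberwise_of_maps_to (s := N) (t := N.image resP) (g := resP)
      (fun k hk => Finset.mem_image_of_mem _ hk)]
    apply Finset.sum_congr rfl
    intro κ _
    simp only [D]
    rw [Finset.sum_mul]
    apply Finset.sum_congr rfl
    intro k hk
    have hk2 : resP k = κ := (Finset.mem_filter.1 hk).2
    rw [← Fintype.prod_subtype_mul_prod_subtype P (fun i => (Gamma (Y i s))⁻¹ ^ k i)]
    have : ∏ i : {i // P i}, (Gamma (Y i s))⁻¹ ^ κ i =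
        ∏ i : {i // P i}, (Gamma (Y i s))⁻¹ ^ k i := by
      rw [← hk2]
    rw [this]
    ring
  have hDMer : ∀ κ ∈ N.image resP, Mer r0 (D κ) := by
    intro κ _
    apply Mer.sum hr01
    intro k hk
    apply Mer.mul (Mer.mono hr0r (hC k (Finset.mem_filter.1 hk).1))
    choose B hB using fun i : {i // ¬ P i} => hbd i.1 i.2
    apply Mer.of_bdd (C := ∏ i : {i // ¬ P i}, B i ^ k i)
    · apply DifferentiableOn.fun_finsetProd
      intro i _
      exact (hdG i).pow _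
    · intro s hs
      rw [norm_prod]
      apply Finset.prod_le_prod
      · intro i _
        exact norm_nonneg _
      · intro i _
        rw [norm_pow]
        exact pow_le_pow_left₀ (norm_nonneg _) (hB i s hs) _
  have hD0 : ∀ κ ∈ N.image resP, ∀ s ∈ U r0, D κ s = 0 := by
    apply ltF r0 {i // P i} (fun i => Y i) hr0 hr01
    · intro i
      exact (hY i).1.mono (U_subset hr0r)
    · intro i
      obtain ⟨m, a, K, h5, h6, h7⟩ := hRP i.1 i.2
      exact ⟨m, a, K, h5, h6, fun s hs => h7 s (U_subset (hr0R i) hs)⟩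
    · intro i l hil p q hcon
      apply hH i.1 l.1 (fun h => hil (Subtype.ext h)) p q
      intro t ht
      have h5 := ident_U hr0 hr0r (H := fun t => Y i t - (p * Y l t + q))
        (((hY i).1).sub (((hY l).1.const_mul _).add_const _)) (fun s hs => by
          simp only [hcon s hs, sub_self]) t ht
      exact sub_eq_zero.1 h5
    · exact hDMer
    · exact hDrel
  have hdiff : DifferentiableOn ℂ (fun s => ∑ k ∈ N.filter (fun k => k j = m),
      C k s * ∏ i ∈ Finset.univ.erase j, (Gamma (Y i s))⁻¹ ^ k i) (U r) := by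
    apply DifferentiableOn.fun_sum
    intro k hk
    apply DifferentiableOn.mul (hC k (Finset.mem_filter.1 hk).1).1
    apply DifferentiableOn.fun_finsetProd
    intro i _
    exact (hdGr i).pow _
  refine ident_U hr0 hr0r hdiff ?_
  intro s hs
  -- regroup
  have hmap : ∀ k ∈ N.filter (fun k => k j = m),
      resP k ∈ (N.image resP).filter (fun κ => κ ⟨j, hPj⟩ = m) := by
    intro k hk
    obtain ⟨h1, h2⟩ := Finset.mem_filter.1 hk
    exact Finset.mem_filter.2 ⟨Finset.mem_image_of_mem _ h1, h2⟩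
  rw [← Finset.sum_fiberwise_of_maps_to hmap]
  apply Finset.sum_eq_zero
  intro κ hκ
  obtain ⟨hκ1, hκ2⟩ := Finset.mem_filter.1 hκ
  have h7 := hD0 κ hκ1 s hs
  have hset : (N.filter (fun k => k j = m)).filter (fun k => resP k = κ) =
      N.filter (fun k => resP k = κ) := by
    ext k
    simp only [Finset.mem_filter]
    constructor
    · rintro ⟨⟨h1, -⟩, h2⟩
      exact ⟨h1, h2⟩
    · rintro ⟨h1, h2⟩
      refine ⟨⟨h1, ?_⟩, h2⟩
      rw [← hκ2, ← h2]
  rw [hset]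
  have hterm : ∀ k ∈ N.filter (fun k => resP k = κ),
      C k s * ∏ i ∈ Finset.univ.erase j, (Gamma (Y i s))⁻¹ ^ k i =
      (C k s * ∏ i : {i // ¬ P i}, (Gamma (Y i s))⁻¹ ^ k i) *
        ∏ i ∈ (Finset.univ : Finset {i // P i}).erase ⟨j, hPj⟩, (Gamma (Y i s))⁻¹ ^ κ i := by
    intro k hk
    have hk2 : resP k = κ := (Finset.mem_filter.1 hk).2
    have e1 : ∏ i ∈ Finset.univ.erase j, (Gamma (Y i s))⁻¹ ^ k i =
        ∏ i, (if i = j then 1 else (Gamma (Y i s))⁻¹ ^ k i) := by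
      rw [← Finset.mul_prod_erase Finset.univ
        (fun i => if i = j then 1 else (Gamma (Y i s))⁻¹ ^ k i) (Finset.mem_univ j)]
      rw [if_pos rfl, one_mul]
      apply Finset.prod_congr rfl
      intro i hi
      rw [if_neg (Finset.ne_of_mem_erase hi)]
    have e2 : ∏ i ∈ (Finset.univ : Finset {i // P i}).erase ⟨j, hPj⟩,
        (Gamma (Y i s))⁻¹ ^ κ i =
        ∏ i : {i // P i}, (if (i : ι) = j then 1 else (Gamma (Y i s))⁻¹ ^ k i) := by
      rw [← Finset.mul_prod_erase Finset.univ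
        (fun i : {i // P i} => if (i : ι) = j then 1 else (Gamma (Y i s))⁻¹ ^ k i)
        (Finset.mem_univ ⟨j, hPj⟩)]
      rw [if_pos rfl, one_mul]
      apply Finset.prod_congr rfl
      intro i hi
      rw [if_neg (fun h => Finset.ne_of_mem_erase hi (Subtype.ext h)), ← hk2]
    have e3 : ∏ i : {i // ¬ P i}, (if (i : ι) = j then 1 else (Gamma (Y i s))⁻¹ ^ k i) =
        ∏ i : {i // ¬ P i}, (Gamma (Y i s))⁻¹ ^ k i := by
      apply Finset.prod_congr rfl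
      intro i _
      rw [if_neg]
      intro h
      apply i.2
      rw [h]
      exact hPj
    rw [e1, e2, ← Fintype.prod_subtype_mul_prod_subtype P
      (fun i => if i = j then 1 else (Gamma (Y i s))⁻¹ ^ k i), e3]
    ring
  rw [Finset.sum_congr rfl hterm, ← Finset.sum_mul]
  simp only [D] at h7
  rw [h7, zero_mul]

/-- a quotient of holomorphic functions is meromorphic -/
theorem mer_quot {f g : ℂ → ℂ} (hf : AnalyticAt ℂ f 0) (hg : AnalyticAt ℂ g 0)
    (hg0 : ¬ ∀ᶠ z in nhds (0 : ℂ), g z = 0) :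
    ∃ r₀ : ℝ, 0 < r₀ ∧ ∀ r : ℝ, 0 < r → r ≤ r₀ → (∀ s ∈ U r, g s ≠ 0) ∧
      Mer r (fun s => f s / g s) := by
  obtain ⟨m, h, hh, hh0, hgh⟩ := (hg.exists_eventuallyEq_pow_smul_nonzero_iff).2 hg0
  have h1 : ∀ᶠ z in nhds (0 : ℂ), h z ≠ 0 := hh.continuousAt.eventually_ne hh0
  have h2 : ∀ᶠ z in nhds (0 : ℂ), ‖f z / h z‖ ≤ ‖f 0 / h 0‖ + 1 := by
    have : ContinuousAt (fun z => ‖f z / h z‖) 0 := (hf.continuousAt.div hh.continuousAt hh0).norm
    exact (this.eventually_lt_const (by linarith)).mono fun z hz => hz.le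
  have h3 : ∀ᶠ z in nhds (0 : ℂ), AnalyticAt ℂ f z := hf.eventually_analyticAt
  have h4 : ∀ᶠ z in nhds (0 : ℂ), AnalyticAt ℂ g z := hg.eventually_analyticAt
  obtain ⟨ρ, hρ, hb⟩ := Metric.eventually_nhds_iff_ball.1 (((h1.and h2).and (h3.and h4)).and hgh)
  have hmem : ∀ r : ℝ, r ≤ ρ → ∀ s ∈ U r, s ∈ Metric.ball (0 : ℂ) ρ := by
    intro r hr s hs
    rw [Metric.mem_ball, dist_zero_right]
    exact lt_of_lt_of_le hs.2 hr
  refine ⟨ρ, hρ, fun r hr hrρ => ?_⟩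
  have hne : ∀ s ∈ U r, g s ≠ 0 := by
    intro s hs
    have hb' := hb s (hmem r hrρ s hs)
    rw [hb'.2, smul_eq_mul, sub_zero]
    exact mul_ne_zero (pow_ne_zero _ (norm_pos_iff.1 hs.1)) hb'.1.1.1
  refine ⟨hne, ?_, m, ‖f 0 / h 0‖ + 1, ?_⟩
  · intro s hs
    have hb' := hb s (hmem r hrρ s hs)
    exact (hb'.1.2.1.differentiableAt.div hb'.1.2.2.differentiableAt (hne s hs)).differentiableWithinAt
  · intro s hs
    have hb' := hb s (hmem r hrρ s hs)
    have e1 : f s / g s = (f s / h s) * (s⁻¹) ^ m := by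
      rw [hb'.2, smul_eq_mul, sub_zero]
      have : s ≠ 0 := norm_pos_iff.1 hs.1
      have h5 := hb'.1.1.1
      rw [inv_pow, div_eq_mul_inv, div_eq_mul_inv, mul_inv]
      ring
    show ‖f s / g s‖ ≤ _
    rw [e1, norm_mul, norm_pow, norm_inv]
    exact mul_le_mul_of_nonneg_right hb'.1.1.2 (by positivity)

end Pool.Agent.Helper6K9.GM
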