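import Pool.Agent.Helper6K9.GM.Glob

set_option autoImplicit false

/-!
# Values of the Gamma function at meromorphic functions of several variables with poles: final form
-/

namespace Pool.Agent.Helper6K9.GM

open Complex Filter Topology Set Pool.Agent.W175.GF Pool.Agent.W266.GF Pool.Agent.Helper417.Mer

variable {V : Type} [NormedAddCommGroup V] [NormedSpace ℂ V]

theorem QuotAt.ev {y : V → ℂ} {x : V} (h : QuotAt y x) :
    ∃ g : V → ℂ, AnalyticAt ℂ g x ∧ (¬ ∀ᶠ z in 𝓝 x, g z = 0) ∧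
      ∀ᶠ z in 𝓝 x, g z ≠ 0 → AnalyticAt ℂ y z := by
  obtain ⟨f, g, hf, hg, hg0, h1⟩ := h
  refine ⟨g, hg, hg0, ?_⟩
  filter_upwards [hf.eventually_analyticAt, hg.eventually_analyticAt,
    h1.eventually_nhds] with z hz1 hz2 hz3 hz4
  have h2 : ∀ᶠ w in 𝓝 z, f w / g w = y w := by
    filter_upwards [hz3, hz2.continuousAt.eventually_ne hz4] with w hw1 hw2
    exact (hw1 hw2).symm
  exact (hz1.fun_div hz2 hz4).congr h2

theorem PoleAt.quot {y : V → ℂ} {x : V} (h : PoleAt y x) : QuotAt y x := by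
  obtain ⟨f, g, hf, hg, hg0, h1, -, -⟩ := h
  exact ⟨f, g, hf, hg, hg0, h1⟩

/-- the set where finitely many meromorphic functions are analytic -/
theorem good_set [FiniteDimensional ℂ V] {α : Type} [Finite α] {Ω : Set V} (hΩ : IsOpen Ω)
    (hΩc : IsConnected Ω) (u : α → V → ℂ) (hu : ∀ a, ∀ x ∈ Ω, QuotAt (u a) x) :
    IsOpen {t | t ∈ Ω ∧ ∀ a, AnalyticAt ℂ (u a) t} ∧
    IsPreconnected {t | t ∈ Ω ∧ ∀ a, AnalyticAt ℂ (u a) t} ∧
    (∀ x ∈ Ω, ∃ h : V → ℂ, AnalyticAt ℂ h x ∧ (¬ ∀ᶠ z in 𝓝 x, h z = 0) ∧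
      ∀ᶠ z in 𝓝 x, h z ≠ 0 → z ∈ {t | t ∈ Ω ∧ ∀ a, AnalyticAt ℂ (u a) t}) ∧
    Ω ⊆ closure {t | t ∈ Ω ∧ ∀ a, AnalyticAt ℂ (u a) t} := by
  classical
  have : Fintype α := Fintype.ofFinite α
  set G : Set V := {t | t ∈ Ω ∧ ∀ a, AnalyticAt ℂ (u a) t} with hG
  have hGo : IsOpen G := by
    have e : G = Ω ∩ ⋂ a, {t | AnalyticAt ℂ (u a) t} := by
      ext t
      simp [hG]
    rw [e]
    exact hΩ.inter (isOpen_iInter_of_finite fun a => isOpen_analyticAt ℂ (u a))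
  have hthin : ∀ x ∈ Ω, ∃ h : V → ℂ, AnalyticAt ℂ h x ∧ (¬ ∀ᶠ z in 𝓝 x, h z = 0) ∧
      ∀ᶠ z in 𝓝 x, h z ≠ 0 → z ∈ G := by
    intro x hx
    choose g hg hg0 hgy using fun a => (hu a x hx).ev
    obtain ⟨h1, h2⟩ := germ_prod Finset.univ (a := g) (x := x) (fun i _ => hg i) (fun i _ => hg0 i)
    refine ⟨_, h1, h2, ?_⟩
    filter_upwards [Filter.eventually_all.2 hgy, hΩ.mem_nhds hx] with z hz1 hz2 hz3
    exact ⟨hz2, fun a => hz1 a (Finset.prod_ne_zero_iff.1 hz3 a (Finset.mem_univ a))⟩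
  have e2 : Ω \ (Ω \ G) = G := by
    ext t
    constructor
    · rintro ⟨h1, h2⟩
      by_contra h3
      exact h2 ⟨h1, h3⟩
    · intro h
      exact ⟨h.1, fun h' => h'.2 h⟩
  have key := isConnected_diff_thin (A := Ω \ G) hΩ hΩc (by
    intro x hx
    obtain ⟨h, hh1, hh2, hh3⟩ := hthin x hx
    obtain ⟨ρ, hρ, hB⟩ := Metric.eventually_nhds_iff_ball.1 (hh1.eventually_analyticAt.and hh3)
    refine ⟨Metric.ball x ρ, Metric.isOpen_ball, Metric.mem_ball_self hρ, h, fun z hz =>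
      (hB z hz).1.differentiableAt.differentiableWithinAt, ?_, hh2⟩
    rintro z ⟨hz1, hz2⟩
    by_contra hz3
    exact hz1.2 ((hB z hz2).2 hz3)) (by rw [e2]; exact hGo)
  rw [e2] at key
  exact ⟨hGo, key.1.isPreconnected, hthin, key.2⟩

/-- **Values of the Gamma function at meromorphic functions with poles.** -/
theorem main [FiniteDimensional ℂ V] {n : ℕ} {Ω : Set V} (hΩ : IsOpen Ω) (hΩc : IsPreconnected Ω)
    (y : Fin n → V → ℂ) (hy : ∀ i, ∀ x ∈ Ω, QuotAt (y i) x)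
    (hpole : ∀ i, ∃ x ∈ Ω, PoleAt (y i) x)
    (hH : ∀ i l, i ≠ l → ∀ p q : ℚ, ∃ t ∈ Ω, AnalyticAt ℂ (y i) t ∧ AnalyticAt ℂ (y l) t ∧
      y i t ≠ p * y l t + q)
    (N : Finset (Fin n → ℕ)) (c : (Fin n → ℕ) → V → ℂ) (hc : ∀ k ∈ N, ∀ x ∈ Ω, QuotAt (c k) x)
    (hc0 : ∃ k ∈ N, ∃ t ∈ Ω, AnalyticAt ℂ (c k) t ∧ c k t ≠ 0) :
    ∃ t ∈ Ω, (∀ i, AnalyticAt ℂ (y i) t ∧ ∀ m : ℕ, y i t ≠ -m) ∧
      (∀ k ∈ N, AnalyticAt ℂ (c k) t) ∧ ∑ k ∈ N, c k t * ∏ i, Gamma (y i t) ^ k i ≠ 0 := by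
  classical
  obtain ⟨k₀, hk₀, t₀, ht₀, hck₀, hct₀⟩ := hc0
  by_contra hcon
  push Not at hcon
  obtain ⟨hGo, hGp, hthin, hGd⟩ := good_set (α := Fin n ⊕ {k // k ∈ N}) hΩ ⟨⟨t₀, ht₀⟩, hΩc⟩
    (Sum.elim y fun k => c k.1) (by
      rintro (i | k) x hx
      · exact hy i x hx
      · exact hc k.1 k.2 x hx)
  set G : Set V := {t | t ∈ Ω ∧ ∀ a, AnalyticAt ℂ ((Sum.elim y fun k : {k // k ∈ N} => c k.1) a) t}
    with hG
  have hGy : ∀ i, AnalyticOnNhd ℂ (y i) G := fun i t ht => ht.2 (Sum.inl i)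
  have hGc : ∀ k ∈ N, AnalyticOnNhd ℂ (c k) G := fun k hk t ht => ht.2 (Sum.inr ⟨k, hk⟩)
  have hpt : ∀ t ∈ Ω, ∀ S : Set V, S ∈ 𝓝 t → ∃ z ∈ G, z ∈ S := by
    intro t ht S hS
    have := mem_closure_iff_nhds.1 (hGd ht) S hS
    obtain ⟨z, hz1, hz2⟩ := this
    exact ⟨z, hz2, hz1⟩
  obtain ⟨M, hM⟩ : ∃ M : ℕ, ∀ κ ∈ N, ∀ i, κ i ≤ M := by
    refine ⟨N.sup (fun κ => ∑ i, κ i), fun κ hκ i => ?_⟩
    exact (Finset.single_le_sum (fun _ _ => Nat.zero_le _) (Finset.mem_univ i)).trans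
      (Finset.le_sup (f := fun κ : Fin n → ℕ => ∑ i, κ i) hκ)
  let rv : (Fin n → ℕ) → (Fin n → ℕ) := fun κ i => M + 1 - κ i
  have hrv : ∀ κ ∈ N, rv (rv κ) = κ := by
    intro κ hκ
    funext i
    have := hM κ hκ i
    show M + 1 - (M + 1 - κ i) = κ i
    omega
  have key := glob n (Fin n) (by simp) Ω G hGp hthin y (N.image rv) (fun κ => c (rv κ)) hy
    (by
      intro κ hκ x hx
      obtain ⟨k, hk, rfl⟩ := Finset.mem_image.1 hκ
      simp only [hrv k hk]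
      exact hc k hk x hx) hGy
    (by
      intro κ hκ
      obtain ⟨k, hk, rfl⟩ := Finset.mem_image.1 hκ
      simp only [hrv k hk]
      exact hGc k hk) hpole
    (by
      intro i l hil p q hcon2
      obtain ⟨t, ht, h1, h2, h3⟩ := hH i l hil p q
      have hev : {z | y i z ≠ p * y l z + q} ∈ 𝓝 t := by
        have hca : ContinuousAt (fun z => y i z - (p * y l z + q)) t :=
          h1.continuousAt.sub ((continuousAt_const.mul h2.continuousAt).add continuousAt_const)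
        filter_upwards [hca.eventually_ne (sub_ne_zero.2 h3)] with z hz
        exact sub_ne_zero.1 hz
      obtain ⟨z, hz1, hz2⟩ := hpt t ht _ hev
      exact hz2 (hcon2 z hz1))
    (by
      intro t ht
      rw [Finset.sum_image (fun k hk k' hk' h => by rw [← hrv k hk, ← hrv k' hk', h])]
      by_cases hp : ∀ i, ∀ m : ℕ, y i t ≠ -m
      · have h1 := hcon t ht.1 (fun i => ⟨hGy i t ht, hp i⟩) (fun k hk => hGc k hk t ht)
        have h2 : ∀ κ ∈ N, c (rv (rv κ)) t * ∏ i, (Gamma (y i t))⁻¹ ^ rv κ i =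
            (∏ i, (Gamma (y i t))⁻¹ ^ (M + 1)) * (c κ t * ∏ i, Gamma (y i t) ^ κ i) := by
          intro κ hκ
          have h4 : ∏ i, (Gamma (y i t))⁻¹ ^ rv κ i =
              (∏ i, (Gamma (y i t))⁻¹ ^ (M + 1)) * ∏ i, Gamma (y i t) ^ κ i := by
            rw [← Finset.prod_mul_distrib]
            refine Finset.prod_congr rfl (fun i _ => ?_)
            have h5 : Gamma (y i t) ≠ 0 := Complex.Gamma_ne_zero (hp i)
            have h6 : M + 1 = rv κ i + κ i := by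
              have := hM κ hκ i
              show M + 1 = M + 1 - κ i + κ i
              omega
            conv_rhs => rw [h6, pow_add, mul_assoc, ← mul_pow, inv_mul_cancel₀ h5, one_pow,
              mul_one]
          rw [hrv κ hκ, h4]
          ring
        rw [Finset.sum_congr rfl h2, ← Finset.mul_sum, h1, mul_zero]
      · push Not at hp
        obtain ⟨i, m, him⟩ := hp
        apply Finset.sum_eq_zero
        intro κ hκ
        apply mul_eq_zero_of_right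
        apply Finset.prod_eq_zero (Finset.mem_univ i)
        rw [him, Complex.Gamma_neg_nat_eq_zero, inv_zero]
        apply zero_pow
        have := hM κ hκ i
        show M + 1 - κ i ≠ 0
        omega)
    (rv k₀) (Finset.mem_image_of_mem rv hk₀)
  have hev : {z | c k₀ z ≠ 0} ∈ 𝓝 t₀ := hck₀.continuousAt.eventually_ne hct₀
  obtain ⟨z, hz1, hz2⟩ := hpt t₀ ht₀ _ hev
  have := key z hz1
  rw [hrv k₀ hk₀] at this
  exact hz2 this

end Pool.Agent.Helper6K9.GM
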