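import Pool.Agent.Helper6K9.GM.Main

set_option autoImplicit false

/-!
# One variable: meromorphic functions with poles together with algebraic functions
-/

namespace Pool.Agent.Helper6K9.GM

open Complex Filter Topology Set Pool.Agent.W175.GF Pool.Agent.W266.GF

theorem quot_of_mero {u : ℂ → ℂ} {x : ℂ} (h : MeromorphicAt u x) : QuotAt u x := by
  obtain ⟨n, hn⟩ := h
  refine ⟨fun z => (z - x) ^ n • u z, fun z => (z - x) ^ n, hn,
    (analyticAt_id.sub analyticAt_const).pow n, ?_, ?_⟩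
  · intro hev
    have h1 : ∀ᶠ z in 𝓝[≠] x, (z - x) ^ n = 0 := hev.filter_mono nhdsWithin_le_nhds
    obtain ⟨z, hz1, hz2⟩ := (h1.and self_mem_nhdsWithin).exists
    exact pow_ne_zero n (sub_ne_zero.2 hz2) hz1
  · filter_upwards with z hz
    rw [smul_eq_mul, mul_div_cancel_left₀ _ hz]

theorem pole_of_order {u : ℂ → ℂ} {x : ℂ} (h : MeromorphicAt u x)
    (ho : meromorphicOrderAt u x < 0) : PoleAt u x := by
  obtain ⟨n, hn⟩ := WithTop.ne_top_iff_exists.1 (ne_top_of_lt ho)
  have hn0 : n < 0 := by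
    rw [← hn] at ho
    exact_mod_cast ho
  obtain ⟨g, hg, hg0, hgu⟩ := (meromorphicOrderAt_eq_int_iff h).1 hn.symm
  obtain ⟨m, hm⟩ : ∃ m : ℕ, n = -(m + 1 : ℕ) := ⟨(-n - 1).toNat, by omega⟩
  refine ⟨g, fun z => (z - x) ^ (m + 1), hg, (analyticAt_id.sub analyticAt_const).pow _, ?_, ?_,
    by simp, hg0⟩
  · intro hev
    have h1 : ∀ᶠ z in 𝓝[≠] x, (z - x) ^ (m + 1) = 0 := hev.filter_mono nhdsWithin_le_nhds
    obtain ⟨z, hz1, hz2⟩ := (h1.and self_mem_nhdsWithin).exists
    exact hz2 (sub_eq_zero.1 (pow_eq_zero_iff (Nat.succ_ne_zero m) |>.1 hz1))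
  · rw [eventually_nhdsWithin_iff] at hgu
    filter_upwards [hgu] with z hz1 hz2
    have hzx : z ≠ x := by
      rintro rfl
      simp at hz2
    rw [hz1 hzx, hm, smul_eq_mul, zpow_neg, zpow_natCast, div_eq_mul_inv, mul_comm]

/-- the relation with the functions `1 / Γ` -/
noncomputable def Phi {n : ℕ} (z : Fin n → ℂ → ℂ) (w : ℂ → ℂ) (M : ℕ)
    (P : MvPolynomial (Option (Fin n)) ℂ) (t : ℂ) : ℂ :=
  ∑ e ∈ P.support, P.coeff e * w t ^ e none * ∏ i, (Gamma (z i t))⁻¹ ^ (M - e (some i))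

theorem nonvanish {n : ℕ} {Ω : Set ℂ} (hΩ : IsOpen Ω) (hc : IsPreconnected Ω)
    (z : Fin n → ℂ → ℂ) (hz : ∀ i, ∀ x ∈ Ω, MeromorphicAt (z i) x) (i₀ : Fin n)
    (hcase : ∀ i, (∃ x ∈ Ω, meromorphicOrderAt (z i) x < 0) ∨ ∀ x ∈ Ω, AnalyticAt ℂ (z i) x)
    (hH : ∀ i l, i ≠ l → ∀ p q : ℚ, ∃ t ∈ Ω, (∀ i, AnalyticAt ℂ (z i) t) ∧
      z i t ≠ p * z l t + q)
    (Ω' : Set ℂ) (hΩ' : IsOpen Ω') (hc' : IsPreconnected Ω') (hn' : Ω'.Nonempty)
    (hsub : ∀ t ∈ Ω', t ∈ Ω ∧ ∀ i, AnalyticAt ℂ (z i) t)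
    (hnc : ∀ i, (∃ x ∈ Ω, meromorphicOrderAt (z i) x < 0) ∨ ∀ v : ℂ, ¬ ∀ t ∈ Ω', z i t = v)
    (hw : ∀ v : ℂ, ¬ ∀ t ∈ Ω', z i₀ t = v)
    (halg : ∀ i, (∃ x ∈ Ω, meromorphicOrderAt (z i) x < 0) ∨ AlgDep Ω' (z i₀) (z i))
    (P : MvPolynomial (Option (Fin n)) ℂ) (hP : P ≠ 0) (M : ℕ)
    (hM : ∀ e ∈ P.support, ∀ i, e (some i) ≤ M) :
    ∃ t ∈ Ω, (∀ i, AnalyticAt ℂ (z i) t) ∧ Phi z (z i₀) M P t ≠ 0 := by
  classical
  by_contra hcon
  push Not at hcon
  obtain ⟨t₀, ht₀⟩ := hn'
  have hΩn : Ω.Nonempty := ⟨t₀, (hsub t₀ ht₀).1⟩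
  obtain ⟨hGo, hGp, hthin, hGd⟩ := good_set hΩ ⟨hΩn, hc⟩ z
    (fun i x hx => quot_of_mero (hz i x hx))
  set G : Set ℂ := {t | t ∈ Ω ∧ ∀ i, AnalyticAt ℂ (z i) t} with hG
  let B : Fin n → Prop := fun i => ∃ x ∈ Ω, meromorphicOrderAt (z i) x < 0
  have hAan : ∀ i, ¬ B i → ∀ x ∈ Ω, AnalyticAt ℂ (z i) x := fun i hi =>
    (hcase i).resolve_left hi
  obtain ⟨e₀, he₀⟩ := MvPolynomial.ne_zero_iff.1 hP
  have he₀s : e₀ ∈ P.support := MvPolynomial.mem_support_iff.2 he₀
  let rB : (Option (Fin n) →₀ ℕ) → ({i // B i} → ℕ) := fun e i => M - e (some i)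
  let rA : (Option (Fin n) →₀ ℕ) → ({i // ¬ B i} → ℕ) := fun e i => M - e (some i)
  -- the coefficients
  let C : ({i // B i} → ℕ) → ℂ → ℂ := fun κ t => ∑ e ∈ P.support.filter (fun e => rB e = κ),
    P.coeff e * z i₀ t ^ e none * ∏ i : {i // ¬ B i}, (Gamma (z i t))⁻¹ ^ rA e i
  have hCG : ∀ κ, AnalyticOnNhd ℂ (C κ) G := by
    intro κ t ht
    apply Finset.analyticAt_fun_sum
    intro e _
    refine AnalyticAt.fun_mul (analyticAt_const.fun_mul ((ht.2 i₀).fun_pow _)) ?_
    apply Finset.analyticAt_fun_prod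
    intro i _
    exact (analyticAt_gamma_comp (ht.2 i)).fun_pow _
  have hCq : ∀ κ, ∀ x ∈ Ω, QuotAt (C κ) x := by
    intro κ x hx
    apply quot_of_mero
    apply MeromorphicAt.fun_sum
    intro e _
    refine MeromorphicAt.fun_mul ((MeromorphicAt.const _ _).fun_mul ((hz i₀ x hx).fun_pow _)) ?_
    apply MeromorphicAt.fun_prod
    intro i _
    exact ((analyticAt_gamma_comp (hAan i.1 i.2 x hx)).fun_pow _).meromorphicAt
  have hC0 := glob (Fintype.card {i // B i}) {i // B i} rfl Ω G hGp hthin (fun i => z i)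
    (P.support.image rB) C (fun i x hx => quot_of_mero (hz i x hx)) (fun κ _ => hCq κ)
    (fun i t ht => ht.2 i) (fun κ _ => hCG κ)
    (fun i => by
      obtain ⟨x, hx, hx'⟩ := i.2
      exact ⟨x, hx, pole_of_order (hz i x hx) hx'⟩)
    (fun i l hil p q hcon2 => by
      obtain ⟨t, ht, h1, h2⟩ := hH i.1 l.1 (fun h => hil (Subtype.ext h)) p q
      exact h2 (hcon2 t ⟨ht, h1⟩))
    (by
      intro t ht
      have h1 := hcon t ht.1 ht.2
      unfold Phi at h1
      rw [← h1, ← Finset.sum_fiberwise_of_maps_to (s := P.support) (t := P.support.image rB)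
        (g := rB) (fun k hk => Finset.mem_image_of_mem _ hk)]
      apply Finset.sum_congr rfl
      intro κ _
      simp only [C]
      rw [Finset.sum_mul]
      apply Finset.sum_congr rfl
      intro e he
      have hk2 : rB e = κ := (Finset.mem_filter.1 he).2
      rw [← Fintype.prod_subtype_mul_prod_subtype B
        (fun i => (Gamma (z i t))⁻¹ ^ (M - e (some i))), ← hk2]
      simp only [rB, rA]
      ring)
    (rB e₀) (Finset.mem_image_of_mem _ he₀s)
  -- the algebraic functions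
  let C' : ({i // ¬ B i} → ℕ) → ℂ → ℂ := fun μ t =>
    ∑ e ∈ (P.support.filter (fun e => rB e = rB e₀)).filter (fun e => rA e = μ),
      P.coeff e * z i₀ t ^ e none
  have hC'0 := gtF {i // ¬ B i} Ω' (z i₀) (fun i => z i)
    ((P.support.filter (fun e => rB e = rB e₀)).image rA) C' hΩ' hc' ⟨t₀, ht₀⟩
    (fun t ht => ((hsub t ht).2 i₀).differentiableAt.differentiableWithinAt)
    (fun i t ht => ((hsub t ht).2 i).differentiableAt.differentiableWithinAt)
    (fun μ _ => by
      apply DifferentiableOn.fun_sum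
      intro e _
      exact DifferentiableOn.const_mul (DifferentiableOn.fun_pow (fun t ht =>
        ((hsub t ht).2 i₀).differentiableAt.differentiableWithinAt) _) _)
    hw (fun i => (hnc i).resolve_left i.2) (fun i => (halg i).resolve_left i.2)
    (fun μ _ => by
      refine ⟨Polynomial.X - Polynomial.C (∑ e ∈ (P.support.filter
        (fun e => rB e = rB e₀)).filter (fun e => rA e = μ),
        Polynomial.C (P.coeff e) * Polynomial.X ^ e none), Polynomial.X_sub_C_ne_zero _,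
        fun t _ => ?_⟩
      simp [Polynomial.evalEval, C', Polynomial.eval_finsetSum])
    (fun i l hil p q hcon2 => by
      obtain ⟨t, ht, h1, h2⟩ := hH i.1 l.1 (fun h => hil (Subtype.ext h)) p q
      apply h2
      have h3 : AnalyticOnNhd ℂ (fun t => z i t - (p * z l t + q)) G := fun t ht =>
        (ht.2 i).fun_sub ((analyticAt_const.fun_mul (ht.2 l)).fun_add analyticAt_const)
      have h4 := h3.eqOn_zero_of_preconnected_of_eventuallyEq_zero hGp (hsub t₀ ht₀)
        (by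
          filter_upwards [hΩ'.mem_nhds ht₀] with s hs
          show z i s - (p * z l s + q) = 0
          rw [hcon2 s hs, sub_self]) ⟨ht, h1⟩
      exact sub_eq_zero.1 h4)
    (by
      intro t ht
      have h1 := hC0 t (hsub t ht)
      simp only [C] at h1
      rw [← h1, ← Finset.sum_fiberwise_of_maps_to
        (s := P.support.filter (fun e => rB e = rB e₀))
        (t := (P.support.filter (fun e => rB e = rB e₀)).image rA)
        (g := rA) (fun k hk => Finset.mem_image_of_mem _ hk)]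
      apply Finset.sum_congr rfl
      intro μ _
      simp only [C']
      rw [Finset.sum_mul]
      apply Finset.sum_congr rfl
      intro e he
      rw [(Finset.mem_filter.1 he).2])
    (rA e₀) (Finset.mem_image_of_mem _ (Finset.mem_filter.2 ⟨he₀s, rfl⟩))
  -- a polynomial in one variable
  set S := (P.support.filter (fun e => rB e = rB e₀)).filter (fun e => rA e = rA e₀) with hS
  set R : Polynomial ℂ := ∑ e ∈ S, Polynomial.C (P.coeff e) * Polynomial.X ^ e none with hR
  have hinj : ∀ e ∈ S, e none = e₀ none → e = e₀ := by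
    intro e he h0
    obtain ⟨he1, he2⟩ := Finset.mem_filter.1 he
    obtain ⟨he3, he4⟩ := Finset.mem_filter.1 he1
    ext o
    cases o with
    | none => exact h0
    | some i =>
      have h1 := hM e he3 i
      have h2 := hM e₀ he₀s i
      by_cases hB : B i
      · have := congrFun he4 ⟨i, hB⟩
        simp only [rB] at this
        omega
      · have := congrFun he2 ⟨i, hB⟩
        simp only [rA] at this
        omega
  have he₀S : e₀ ∈ S := Finset.mem_filter.2 ⟨Finset.mem_filter.2 ⟨he₀s, rfl⟩, rfl⟩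
  have hRc : R.coeff (e₀ none) = P.coeff e₀ := by
    rw [hR, Polynomial.finsetSum_coeff, Finset.sum_eq_single e₀]
    · simp
    · intro e he hne
      rw [Polynomial.coeff_C_mul_X_pow, if_neg]
      intro h
      exact hne (hinj e he h.symm)
    · intro h
      exact absurd he₀S h
  have hR0 : ∀ t ∈ Ω', R.eval (z i₀ t) = 0 := by
    intro t ht
    rw [← hC'0 t ht, hR, Polynomial.eval_finsetSum]
    apply Finset.sum_congr rfl
    intro e _
    simp
  have hRne : R ≠ 0 := by
    intro h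
    rw [h, Polynomial.coeff_zero] at hRc
    exact he₀ hRc.symm
  -- `z i₀` takes finitely many values on the connected set
  have hfin : (z i₀ '' Ω').Finite := by
    refine (R.roots.toFinset.finite_toSet).subset ?_
    rintro _ ⟨t, ht, rfl⟩
    simp only [Finset.mem_coe, Multiset.mem_toFinset, Polynomial.mem_roots hRne]
    exact hR0 t ht
  have hcont : ContinuousOn (z i₀) Ω' := fun t ht => ((hsub t ht).2 i₀).continuousAt.continuousWithinAt
  have hss := hfin.countable.isTotallyDisconnected _ (subset_refl _) (hc'.image _ hcont)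
  exact hw (z i₀ t₀) (fun t ht => hss ⟨t, ht, rfl⟩ ⟨t₀, ht₀, rfl⟩)

end Pool.Agent.Helper6K9.GM
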